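import Mathlib

set_option autoImplicit false

/-!
# Entrywise powers at least two on triangle-free patterns
-/

namespace Pool.Agent.Lib.MP_903d4d_co

open scoped BigOperators

variable {V : Type} [Fintype V] [DecidableEq V]

/-- A symmetric matrix dominated by its diagonal after rescaling is positive semidefinite. -/
theorem psd_of_dominated (B : Matrix V V ℝ) (hsymm : ∀ i j, B i j = B j i) (e : V → ℝ)
    (he : ∀ i, 0 ≤ e i) (hB : ∀ i j, 0 ≤ B i j) (h0 : ∀ i j, e i = 0 → B i j = 0)
    (hdom : ∀ i, ∑ j, (if j = i then 0 else B i j / e j) ≤ B i i / e i) :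
    B.PosSemidef := by
  classical
  refine Matrix.PosSemidef.of_dotProduct_mulVec_nonneg ?_ ?_
  · ext i j
    simp [Matrix.conjTranspose, hsymm j i]
  intro x
  have e1 : star x ⬝ᵥ (B.mulVec x) = ∑ i, ∑ j, x i * x j * B i j := by
    simp only [dotProduct, Matrix.mulVec, Pi.star_apply, star_trivial]
    refine Finset.sum_congr rfl ?_
    intro i _
    rw [Finset.mul_sum]
    refine Finset.sum_congr rfl ?_
    intro j _
    ring
  rw [e1]
  -- termwise lower bound
  have key : ∀ i j, (if j = i then x i ^ 2 * B i i else 0) -
      (if j = i then 0 else (x i ^ 2 * e i * (B i j / e j) + x j ^ 2 * e j * (B j i / e i)) / 2)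
      ≤ x i * x j * B i j := by
    intro i j
    by_cases hij : j = i
    · subst hij
      simp only [if_true]
      nlinarith
    · rw [if_neg hij, if_neg hij]
      rcases (he i).eq_or_lt with hi | hi
      · have h1 : B i j = 0 := h0 i j hi.symm
        have h2 : B j i = 0 := by rw [hsymm]; exact h1
        rw [h1, h2]
        simp
      rcases (he j).eq_or_lt with hj | hj
      · have h2 : B j i = 0 := h0 j i hj.symm
        have h1 : B i j = 0 := by rw [hsymm]; exact h2
        rw [h1, h2]
        simp
      rw [hsymm j i]
      have hb := hB i j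
      have h3 : (x i ^ 2 * e i * (B i j / e j) + x j ^ 2 * e j * (B i j / e i)) / 2 + x i * x j * B i j
          = B i j * (x i * e i + x j * e j) ^ 2 / (2 * e i * e j) := by
        field_simp
        ring
      have h4 : 0 ≤ B i j * (x i * e i + x j * e j) ^ 2 / (2 * e i * e j) := by positivity
      linarith
  have h1 : ∑ i, ∑ j, ((if j = i then x i ^ 2 * B i i else 0) -
      (if j = i then 0 else (x i ^ 2 * e i * (B i j / e j) + x j ^ 2 * e j * (B j i / e i)) / 2))
      ≤ ∑ i, ∑ j, x i * x j * B i j :=
    Finset.sum_le_sum fun i _ => Finset.sum_le_sum fun j _ => key i j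
  refine le_trans ?_ h1
  simp only [Finset.sum_sub_distrib]
  have h2 : ∑ i, ∑ j, (if j = i then x i ^ 2 * B i i else 0) = ∑ i, x i ^ 2 * B i i := by
    refine Finset.sum_congr rfl fun i _ => ?_
    simp
  have h3 : ∑ i, ∑ j, (if j = i then (0 : ℝ) else
      (x i ^ 2 * e i * (B i j / e j) + x j ^ 2 * e j * (B j i / e i)) / 2)
      = ∑ i, x i ^ 2 * e i * ∑ j, (if j = i then 0 else B i j / e j) := by
    have h4 : ∑ i, ∑ j, (if j = i then (0 : ℝ) else x j ^ 2 * e j * (B j i / e i))
        = ∑ i, ∑ j, (if j = i then (0 : ℝ) else x i ^ 2 * e i * (B i j / e j)) := by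
      rw [Finset.sum_comm]
      refine Finset.sum_congr rfl fun i _ => Finset.sum_congr rfl fun j _ => ?_
      by_cases hij : j = i
      · subst hij; simp
      · rw [if_neg hij, if_neg (Ne.symm hij)]
    have h5 : ∑ i, ∑ j, (if j = i then (0 : ℝ) else
        (x i ^ 2 * e i * (B i j / e j) + x j ^ 2 * e j * (B j i / e i)) / 2)
        = (∑ i, ∑ j, (if j = i then (0 : ℝ) else x i ^ 2 * e i * (B i j / e j))
          + ∑ i, ∑ j, (if j = i then (0 : ℝ) else x j ^ 2 * e j * (B j i / e i))) / 2 := by
      rw [← Finset.sum_add_distrib, Finset.sum_div]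
      refine Finset.sum_congr rfl fun i _ => ?_
      rw [← Finset.sum_add_distrib, Finset.sum_div]
      refine Finset.sum_congr rfl fun j _ => ?_
      split_ifs <;> simp
    rw [h5, h4]
    have h6 : ∀ t : ℝ, (t + t) / 2 = t := fun t => by ring
    rw [h6]
    refine Finset.sum_congr rfl fun i _ => ?_
    rw [Finset.mul_sum]
    refine Finset.sum_congr rfl fun j _ => ?_
    split_ifs <;> simp
  rw [h2, h3, ← Finset.sum_sub_distrib]
  refine Finset.sum_nonneg fun i _ => ?_
  rcases (he i).eq_or_lt with hi | hi
  · rw [← hi, h0 i i hi.symm]
    simp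
  · have h4 := hdom i
    have h5 : x i ^ 2 * e i * ∑ j, (if j = i then 0 else B i j / e j) ≤
        x i ^ 2 * e i * (B i i / e i) := mul_le_mul_of_nonneg_left h4 (by positivity)
    have h6 : x i ^ 2 * e i * (B i i / e i) = x i ^ 2 * B i i := by
      field_simp
    linarith

/-- The inequality for the star at a vertex in a triangle-free pattern. -/
theorem star_ineq (G : SimpleGraph V) (hG : ∀ x y z, G.Adj x y → G.Adj y z → G.Adj x z → False)
    (A : Matrix V V ℝ) (hA : A.PosSemidef)
    (hpat : ∀ i j, i ≠ j → ¬ G.Adj i j → A i j = 0) (i : V) :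
    ∑ j, (if j = i then 0 else A i j ^ 2 / A j j) ≤ A i i := by
  have hsymm : ∀ i j, A i j = A j i := by
    intro i j
    have := hA.1.apply i j
    simpa using this.symm
  let x : V → ℝ := fun j => if j = i then 1 else - (A i j / A j j)
  have h := hA.dotProduct_mulVec_nonneg x
  have e1 : star x ⬝ᵥ (A.mulVec x) = ∑ j, ∑ k, x j * x k * A j k := by
    simp only [dotProduct, Matrix.mulVec, Pi.star_apply, star_trivial]
    refine Finset.sum_congr rfl ?_
    intro i _
    rw [Finset.mul_sum]
    refine Finset.sum_congr rfl ?_
    intro j _
    ring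
  rw [e1] at h
  have key : ∀ j k, x j * x k * A j k =
      (if j = i then (if k = i then A i i else - (A i k ^ 2 / A k k)) else
        (if k = i then - (A i j ^ 2 / A j j) else (if k = j then A i j ^ 2 / A j j else 0))) := by
    intro j k
    by_cases hj : j = i
    · subst hj
      by_cases hk : k = j
      · subst hk
        simp [x]
      · simp only [x, if_true, if_neg hk]
        ring
    · by_cases hk : k = i
      · subst hk
        simp only [x, if_true, if_neg hj]
        rw [hsymm j k]
        ring
      · by_cases hjk : k = j
        · subst hjk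
          simp only [x, if_true, if_neg hj]
          by_cases h0 : A k k = 0
          · rw [h0]; simp
          · field_simp
        · simp only [if_neg hj, if_neg hk, if_neg hjk]
          by_cases h1 : G.Adj i j
          · by_cases h2 : G.Adj i k
            · have h3 : ¬ G.Adj j k := fun h3 => hG i j k h1 h3 h2
              rw [hpat j k (Ne.symm hjk) h3]
              simp
            · have : x k = 0 := by
                simp only [x, if_neg hk]
                rw [hpat i k (Ne.symm hk) h2]
                simp
              rw [this]; simp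
          · have : x j = 0 := by
              simp only [x, if_neg hj]
              rw [hpat i j (Ne.symm hj) h1]
              simp
            rw [this]; simp
  simp_rw [key] at h
  have h2 : ∑ j, ∑ k, (if j = i then (if k = i then A i i else - (A i k ^ 2 / A k k)) else
        (if k = i then - (A i j ^ 2 / A j j) else (if k = j then A i j ^ 2 / A j j else 0)))
      = A i i - ∑ j, (if j = i then 0 else A i j ^ 2 / A j j) := by
    have h3 : ∀ j, ∑ k, (if j = i then (if k = i then A i i else - (A i k ^ 2 / A k k)) else
        (if k = i then - (A i j ^ 2 / A j j) else (if k = j then A i j ^ 2 / A j j else 0)))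
        = if j = i then (A i i - ∑ k, (if k = i then 0 else A i k ^ 2 / A k k)) else 0 := by
      intro j
      by_cases hj : j = i
      · simp only [if_pos hj]
        have : ∀ k, (if k = i then A i i else - (A i k ^ 2 / A k k)) =
            (if k = i then A i i else 0) - (if k = i then 0 else A i k ^ 2 / A k k) := by
          intro k
          split_ifs <;> simp
        simp_rw [this]
        rw [Finset.sum_sub_distrib]
        simp
      · simp only [if_neg hj]
        have : ∀ k, (if k = i then - (A i j ^ 2 / A j j) else
            (if k = j then A i j ^ 2 / A j j else 0)) =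
            (if k = i then - (A i j ^ 2 / A j j) else 0) +
              (if k = j then A i j ^ 2 / A j j else 0) := by
          intro k
          by_cases hk : k = i
          · subst hk
            simp [Ne.symm hj]
          · simp [hk]
        simp_rw [this]
        rw [Finset.sum_add_distrib]
        simp
    simp_rw [h3]
    simp
  rw [h2] at h
  linarith

omit [Fintype V] [DecidableEq V] in
theorem sq_le_diag (A : Matrix V V ℝ) (hA : A.PosSemidef) (i j : V) :
    A i j ^ 2 ≤ A i i * A j j := by
  have hsymm : A j i = A i j := by
    have := hA.1.apply i j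
    simpa using this
  have h := (hA.submatrix ![i, j]).det_nonneg
  rw [Matrix.det_fin_two] at h
  simp only [Matrix.submatrix_apply, Matrix.cons_val_zero, Matrix.cons_val_one] at h
  rw [hsymm] at h
  nlinarith

/-- The scalar function `x ↦ x ^ β` with the convention `0 ^ β = 0` for every `β`. -/
noncomputable def pw (β x : ℝ) : ℝ := if x = 0 then 0 else x ^ β

/-- Entrywise powers at least two of a matrix with triangle-free pattern are positive
semidefinite. -/
theorem pow_psd (G : SimpleGraph V) (hG : ∀ x y z, G.Adj x y → G.Adj y z → G.Adj x z → False)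
    (A : Matrix V V ℝ) (hA : A.PosSemidef) (hnn : ∀ i j, 0 ≤ A i j)
    (hpat : ∀ i j, i ≠ j → ¬ G.Adj i j → A i j = 0) (β : ℝ) (hβ : 2 ≤ β) :
    (A.map (pw β)).PosSemidef := by
  have hsymm : ∀ i j, A i j = A j i := by
    intro i j
    have := hA.1.apply i j
    simpa using this.symm
  have hzero : ∀ i j, A i i = 0 → A i j = 0 := by
    intro i j h
    have h1 := sq_le_diag A hA i j
    rw [h, zero_mul] at h1
    have h2 : A i j ^ 2 = 0 := le_antisymm h1 (sq_nonneg _)
    exact pow_eq_zero_iff (two_ne_zero) |>.1 h2
  refine psd_of_dominated _ ?_ (fun i => A i i ^ (β / 2)) ?_ ?_ ?_ ?_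
  · intro i j
    simp only [Matrix.map_apply]
    rw [hsymm i j]
  · intro i
    exact Real.rpow_nonneg (hnn i i) _
  · intro i j
    simp only [Matrix.map_apply, pw]
    split_ifs
    · exact le_rfl
    · exact Real.rpow_nonneg (hnn i j) _
  · intro i j h
    have h1 : A i i = 0 := by
      rcases (Real.rpow_eq_zero_iff_of_nonneg (hnn i i)).1 h with ⟨h1, -⟩
      exact h1
    simp only [Matrix.map_apply, pw]
    rw [if_pos (hzero i j h1)]
  · intro i
    simp only [Matrix.map_apply]
    rcases (hnn i i).eq_or_lt with hi | hi
    · have h0 : ∀ j, pw β (A i j) = 0 := fun j => by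
        unfold pw
        rw [if_pos (hzero i j hi.symm)]
      simp [h0]
    · have hR : pw β (A i i) / A i i ^ (β / 2) = A i i ^ (β / 2) := by
        unfold pw
        rw [if_neg hi.ne', ← Real.rpow_sub hi]
        congr 1
        ring
      rw [hR]
      have hterm : ∀ j, (if j = i then (0 : ℝ) else pw β (A i j) / A j j ^ (β / 2)) ≤
          A i i ^ ((β - 2) / 2) * (if j = i then 0 else A i j ^ 2 / A j j) := by
        intro j
        by_cases hj : j = i
        · rw [if_pos hj, if_pos hj, mul_zero]
        rw [if_neg hj, if_neg hj]
        by_cases h0 : A i j = 0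
        · unfold pw
          rw [if_pos h0, h0]
          simp
        have hpos : 0 < A i j := lt_of_le_of_ne (hnn i j) (Ne.symm h0)
        have hjpos : 0 < A j j := by
          rcases (hnn j j).eq_or_lt with hjj | hjj
          · exact absurd (by rw [hsymm]; exact hzero j i hjj.symm) h0
          · exact hjj
        have h1 : A i j ^ (β - 2) ≤ (A i i * A j j) ^ ((β - 2) / 2) := by
          have h2 : A i j ^ (β - 2) = (A i j ^ 2) ^ ((β - 2) / 2) := by
            rw [← Real.rpow_natCast, ← Real.rpow_mul hpos.le]
            congr 1
            push_cast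
            ring
          rw [h2]
          exact Real.rpow_le_rpow (by positivity) (sq_le_diag A hA i j) (by linarith)
        have h3 : A i j ^ β = A i j ^ 2 * A i j ^ (β - 2) := by
          rw [← Real.rpow_natCast, ← Real.rpow_add hpos]
          congr 1
          push_cast
          ring
        unfold pw
        rw [if_neg h0, h3]
        have h4 : A i i ^ ((β - 2) / 2) * (A i j ^ 2 / A j j) =
            A i j ^ 2 * (A i i * A j j) ^ ((β - 2) / 2) / A j j ^ (β / 2) := by
          rw [Real.mul_rpow hi.le hjpos.le]
          have h5 : A j j ^ (β / 2) = A j j ^ ((β - 2) / 2) * A j j := by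
            have : β / 2 = (β - 2) / 2 + 1 := by ring
            rw [this, Real.rpow_add hjpos, Real.rpow_one]
          rw [h5]
          have h6 : 0 < A j j ^ ((β - 2) / 2) := Real.rpow_pos_of_pos hjpos _
          field_simp
        rw [h4]
        have h7 : 0 < A j j ^ (β / 2) := Real.rpow_pos_of_pos hjpos _
        gcongr
      refine (Finset.sum_le_sum fun j _ => hterm j).trans ?_
      rw [← Finset.mul_sum]
      have h8 := star_ineq G hG A hA hpat i
      have h9 : A i i ^ (β / 2) = A i i ^ ((β - 2) / 2) * A i i := by
        have : β / 2 = (β - 2) / 2 + 1 := by ring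
        rw [this, Real.rpow_add hi, Real.rpow_one]
      rw [h9]
      exact mul_le_mul_of_nonneg_left h8 (Real.rpow_nonneg hi.le _)

end Pool.Agent.Lib.MP_903d4d_co
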