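-- A triangle-free Cayley graph on F_2^10 and a matrix whose entrywise power 12/11 is not psd.
import Mathlib

set_option autoImplicit false

namespace Pool.Agent.Lib.MP_903d4d_co

/-- The elements of `F_2^k`, as nested pairs of booleans. -/
def VV : ℕ → Type
  | 0 => Unit
  | (k + 1) => Bool × VV k

/-- `VV k` is a finite type. -/
@[reducible] def finVV : (k : ℕ) → Fintype (VV k)
  | 0 => inferInstanceAs (Fintype Unit)
  | (k + 1) => @instFintypeProd Bool (VV k) _ (finVV k)

instance (k : ℕ) : Fintype (VV k) := finVV k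

/-- `VV k` has decidable equality. -/
@[reducible] def decVV : (k : ℕ) → DecidableEq (VV k)
  | 0 => inferInstanceAs (DecidableEq Unit)
  | (k + 1) => @instDecidableEqProd Bool (VV k) _ (decVV k)

instance (k : ℕ) : DecidableEq (VV k) := decVV k

/-- Addition in `F_2^k`. -/
def vx : (k : ℕ) → VV k → VV k → VV k
  | 0, _, _ => ()
  | (k + 1), a, b => (Bool.xor a.1 b.1, vx k a.2 b.2)

/-- The zero of `F_2^k`. -/
def v0 : (k : ℕ) → VV k
  | 0 => ()
  | (k + 1) => (false, v0 k)

/-- Binary trees with integer leaves, holding functions on `F_2^k`. -/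
inductive Tr : Type
  | leaf : ℤ → Tr
  | node : Tr → Tr → Tr

/-- Value of a leaf. -/
def Tr.val : Tr → ℤ
  | .leaf z => z
  | .node _ _ => 0

/-- Left subtree. -/
def Tr.L : Tr → Tr
  | .leaf _ => .leaf 0
  | .node l _ => l

/-- Right subtree. -/
def Tr.R : Tr → Tr
  | .leaf _ => .leaf 0
  | .node _ r => r

/-- The function on `F_2^k` held by a tree. -/
def ev : (k : ℕ) → Tr → VV k → ℤ
  | 0, t, _ => t.val
  | (k + 1), t, v => cond v.1 (ev k t.R v.2) (ev k t.L v.2)

/-- Sum of trees. -/
def tadd : ℕ → Tr → Tr → Tr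
  | 0, s, t => .leaf (s.val + t.val)
  | (k + 1), s, t => .node (tadd k s.L t.L) (tadd k s.R t.R)

/-- Difference of trees. -/
def tsub : ℕ → Tr → Tr → Tr
  | 0, s, t => .leaf (s.val - t.val)
  | (k + 1), s, t => .node (tsub k s.L t.L) (tsub k s.R t.R)

theorem ev_tadd : ∀ (k : ℕ) (s t : Tr) (v : VV k), ev k (tadd k s t) v = ev k s v + ev k t v := by
  intro k
  induction k with
  | zero => intro s t v; rfl
  | succ k ih =>
    intro s t v
    obtain ⟨b, v⟩ := v
    cases b
    · exact ih s.L t.L v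
    · exact ih s.R t.R v

theorem ev_tsub : ∀ (k : ℕ) (s t : Tr) (v : VV k), ev k (tsub k s t) v = ev k s v - ev k t v := by
  intro k
  induction k with
  | zero => intro s t v; rfl
  | succ k ih =>
    intro s t v
    obtain ⟨b, v⟩ := v
    cases b
    · exact ih s.L t.L v
    · exact ih s.R t.R v

/-- Checks that all Walsh coefficients are nonnegative. -/
def check : ℕ → Tr → Bool
  | 0, t => decide (0 ≤ t.val)
  | (k + 1), t => check k (tadd k t.L t.R) && check k (tsub k t.L t.R)

theorem sum_succ {k : ℕ} (f : VV (k + 1) → ℝ) :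
    ∑ i, f i = ∑ v : VV k, f (true, v) + ∑ v : VV k, f (false, v) := by
  exact (Fintype.sum_prod_type (fun p : Bool × VV k => f p)).trans (Fintype.sum_bool _)

theorem check_sound : ∀ (k : ℕ) (t : Tr), check k t = true → ∀ y : VV k → ℝ,
    0 ≤ ∑ i, ∑ j, y i * y j * ((ev k t (vx k i j) : ℤ) : ℝ) := by
  intro k
  induction k with
  | zero =>
    intro t ht y
    have h0 : (0 : ℤ) ≤ t.val := by simpa [check] using ht
    have h1 : (0 : ℝ) ≤ (t.val : ℝ) := by exact_mod_cast h0
    refine Finset.sum_nonneg ?_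
    intro i _
    refine Finset.sum_nonneg ?_
    intro j _
    have hij : i = j := rfl
    subst hij
    exact mul_nonneg (mul_self_nonneg _) h1
  | succ k ih =>
    intro t ht y
    simp only [check, Bool.and_eq_true] at ht
    obtain ⟨hp, hm⟩ := ht
    have h1 := ih _ hp (fun v => y (true, v) + y (false, v))
    have h2 := ih _ hm (fun v => y (false, v) - y (true, v))
    have key : ∑ i, ∑ j, y i * y j * ((ev (k + 1) t (vx (k + 1) i j) : ℤ) : ℝ)
        = (1 / 2) * (∑ i : VV k, ∑ j : VV k, (y (true, i) + y (false, i)) *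
            (y (true, j) + y (false, j)) * ((ev k (tadd k t.L t.R) (vx k i j) : ℤ) : ℝ))
          + (1 / 2) * (∑ i : VV k, ∑ j : VV k, (y (false, i) - y (true, i)) *
            (y (false, j) - y (true, j)) * ((ev k (tsub k t.L t.R) (vx k i j) : ℤ) : ℝ)) := by
      rw [sum_succ]
      simp_rw [sum_succ]
      rw [Finset.mul_sum, Finset.mul_sum, ← Finset.sum_add_distrib, ← Finset.sum_add_distrib]
      refine Finset.sum_congr rfl ?_
      intro i _
      rw [Finset.mul_sum, Finset.mul_sum, ← Finset.sum_add_distrib, ← Finset.sum_add_distrib,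
        ← Finset.sum_add_distrib, ← Finset.sum_add_distrib]
      refine Finset.sum_congr rfl ?_
      intro j _
      rw [ev_tadd, ev_tsub]
      have e1 : ev (k + 1) t (vx (k + 1) (true, i) (true, j)) = ev k t.L (vx k i j) := rfl
      have e2 : ev (k + 1) t (vx (k + 1) (true, i) (false, j)) = ev k t.R (vx k i j) := rfl
      have e3 : ev (k + 1) t (vx (k + 1) (false, i) (true, j)) = ev k t.R (vx k i j) := rfl
      have e4 : ev (k + 1) t (vx (k + 1) (false, i) (false, j)) = ev k t.L (vx k i j) := rfl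
      rw [e1, e2, e3, e4]
      push_cast
      ring
    rw [key]
    have := h1
    have := h2
    positivity


theorem vx_comm : ∀ (k : ℕ) (a b : VV k), vx k a b = vx k b a := by
  intro k
  induction k with
  | zero => intro a b; rfl
  | succ k ih =>
    intro a b
    obtain ⟨a1, a2⟩ := a
    obtain ⟨b1, b2⟩ := b
    have h1 : Bool.xor a1 b1 = Bool.xor b1 a1 := Bool.xor_comm a1 b1
    have h2 := ih a2 b2
    change (Bool.xor a1 b1, vx k a2 b2) = (Bool.xor b1 a1, vx k b2 a2)
    rw [h1, h2]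

theorem vx_self : ∀ (k : ℕ) (a : VV k), vx k a a = v0 k := by
  intro k
  induction k with
  | zero => intro a; rfl
  | succ k ih =>
    intro a
    obtain ⟨a1, a2⟩ := a
    change (Bool.xor a1 a1, vx k a2 a2) = (false, v0 k)
    rw [Bool.xor_self, ih a2]

theorem vx_cancel : ∀ (k : ℕ) (a b : VV k), vx k a (vx k a b) = b := by
  intro k
  induction k with
  | zero => intro a b; rfl
  | succ k ih =>
    intro a b
    obtain ⟨a1, a2⟩ := a
    obtain ⟨b1, b2⟩ := b
    change (Bool.xor a1 (Bool.xor a1 b1), vx k a2 (vx k a2 b2)) = (b1, b2)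
    rw [ih a2 b2]
    cases a1 <;> cases b1 <;> rfl

theorem vx_trans : ∀ (k : ℕ) (a b c : VV k), vx k (vx k a b) (vx k b c) = vx k a c := by
  intro k
  induction k with
  | zero => intro a b c; rfl
  | succ k ih =>
    intro a b c
    obtain ⟨a1, a2⟩ := a
    obtain ⟨b1, b2⟩ := b
    obtain ⟨c1, c2⟩ := c
    change (Bool.xor (Bool.xor a1 b1) (Bool.xor b1 c1), vx k (vx k a2 b2) (vx k b2 c2))
      = (Bool.xor a1 c1, vx k a2 c2)
    rw [ih a2 b2 c2]
    cases a1 <;> cases b1 <;> cases c1 <;> rfl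

/-- Decoding of the weights. -/
def dec : ℕ → ℤ
  | 0 => 0
  | 1 => 1
  | 2 => 26
  | _ => 224

/-- The tree whose leaves are given by the base four digits of a number. -/
def build : ℕ → ℕ → Tr
  | 0, n => .leaf (dec (n % 4))
  | (k + 1), n => .node (build k (n % 4 ^ 2 ^ k)) (build k (n / 4 ^ 2 ^ k))

/-- The base four digits of this number are the (coded) weights on `F_2^10`. -/
def code : ℕ := 58784291817030382832862502052861023250903616058229208121131714261572798138753318603649238375108470710639038374099964762724287774616210873738968756987366841435124026312401618124440976897708208251867020269524509456661923741203246769730749657184372404810953871447170076739800951568224329190222995738556403366704653440229905941453560217416123276092956200272535239190751264014913607052538924707917382693271752890352814600377100665893332692473991481138731794823428083331598336600787611199192661738836070498995535990517915001042276035715953190058065205416270886452645784051636802111489986238694814520723126616067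

/-- The tree of the weights (times 224) on `F_2^10`. -/
def tw : Tr := build 10 code

theorem check_tw : check 10 tw = true := by decide +kernel

theorem dec_nonneg (n : ℕ) : 0 ≤ dec n := by
  unfold dec
  split <;> norm_num

theorem ev_build_nonneg : ∀ (k n : ℕ) (v : VV k), 0 ≤ ev k (build k n) v := by
  intro k
  induction k with
  | zero => intro n v; exact dec_nonneg _
  | succ k ih =>
    intro n v
    obtain ⟨b, v⟩ := v
    cases b
    · exact ih _ v
    · exact ih _ v

/-- Test of a property on all of `F_2^k`. -/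
def tall : (k : ℕ) → (VV k → Bool) → Bool
  | 0, p => p ()
  | (k + 1), p => tall k (fun v => p (false, v)) && tall k (fun v => p (true, v))

theorem tall_sound : ∀ (k : ℕ) (p : VV k → Bool), tall k p = true → ∀ v, p v = true := by
  intro k
  induction k with
  | zero => intro p hp v; exact hp
  | succ k ih =>
    intro p hp v
    simp only [tall, Bool.and_eq_true] at hp
    obtain ⟨b, v⟩ := v
    cases b
    · exact ih _ hp.1 v
    · exact ih _ hp.2 v

/-- The number of leaves with a given value. -/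
def cnt : ℕ → Tr → ℤ → ℕ
  | 0, t, z => if t.val = z then 1 else 0
  | (k + 1), t, z => cnt k t.L z + cnt k t.R z

/-- All leaves have one of the four allowed values. -/
def okv : ℕ → Tr → Bool
  | 0, t => decide (t.val = 0 ∨ t.val = 1 ∨ t.val = 26 ∨ t.val = 224)
  | (k + 1), t => okv k t.L && okv k t.R

theorem sum_ev (φ : ℤ → ℝ) (h0 : φ 0 = 0) : ∀ (k : ℕ) (t : Tr), okv k t = true →
    ∑ v : VV k, φ (ev k t v) = (cnt k t 1 : ℝ) * φ 1 + (cnt k t 26 : ℝ) * φ 26
      + (cnt k t 224 : ℝ) * φ 224 := by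
  intro k
  induction k with
  | zero =>
    intro t ht
    have hs : ∑ v : VV 0, φ (ev 0 t v) = φ t.val := by
      have : ∑ v : VV 0, φ (ev 0 t v) = ∑ v : Unit, φ t.val := rfl
      rw [this]
      simp
    rw [hs]
    have h4 : t.val = 0 ∨ t.val = 1 ∨ t.val = 26 ∨ t.val = 224 := by simpa [okv] using ht
    rcases h4 with h | h | h | h <;> simp [cnt, h, h0]
  | succ k ih =>
    intro t ht
    simp only [okv, Bool.and_eq_true] at ht
    rw [sum_succ]
    have e1 : ∀ v : VV k, ev (k + 1) t (true, v) = ev k t.R v := fun v => rfl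
    have e2 : ∀ v : VV k, ev (k + 1) t (false, v) = ev k t.L v := fun v => rfl
    simp_rw [e1, e2]
    rw [ih _ ht.1, ih _ ht.2]
    simp only [cnt]
    push_cast
    ring

theorem ok_L : okv 9 tw.L = true := by decide +kernel
theorem ok_R : okv 9 tw.R = true := by decide +kernel
theorem cL1 : cnt 9 tw.L 1 = 192 := by decide +kernel
theorem cL26 : cnt 9 tw.L 26 = 0 := by decide +kernel
theorem cL224 : cnt 9 tw.L 224 = 1 := by decide +kernel
theorem cR1 : cnt 9 tw.R 1 = 0 := by decide +kernel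
theorem cR26 : cnt 9 tw.R 26 = 16 := by decide +kernel
theorem cR224 : cnt 9 tw.R 224 = 0 := by decide +kernel
theorem tw_zero : ev 10 tw (v0 10) = 224 := by decide +kernel

/-- Triangle-freeness as a finite check: the elements of type `(0,0)` are only the zero, and no
element of type `(0,1)` is a sum of one of type `(1,0)` and one of type `(1,1)`. -/
theorem chk00 : tall 8 (fun v => decide (ev 8 tw.L.L v = 0) || decide (v = v0 8)) = true := by
  decide +kernel

theorem chkT : tall 8 (fun u => decide (ev 8 tw.R.L u = 0) ||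
    tall 8 (fun v => decide (ev 8 tw.R.R v = 0) || decide (ev 8 tw.L.R (vx 8 u v) = 0))) = true := by
  decide +kernel


theorem eq_of_vx_zero (k : ℕ) (a b : VV k) (h : vx k a b = v0 k) : a = b := by
  have h1 := vx_cancel k a b
  have h2 := vx_cancel k a a
  rw [h] at h1
  rw [vx_self] at h2
  rw [← h1, h2]

theorem T00 (v : VV 8) (h : ev 8 tw.L.L v ≠ 0) : v = v0 8 := by
  have := tall_sound 8 _ chk00 v
  simp only [Bool.or_eq_true, decide_eq_true_eq] at this
  exact this.resolve_left h

theorem TT (u v : VV 8) (hu : ev 8 tw.R.L u ≠ 0) (hv : ev 8 tw.R.R v ≠ 0) :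
    ev 8 tw.L.R (vx 8 u v) = 0 := by
  have h1 := tall_sound 8 _ chkT u
  simp only [Bool.or_eq_true, decide_eq_true_eq] at h1
  have h2 := h1.resolve_left hu
  have h3 := tall_sound 8 _ h2 v
  simp only [Bool.or_eq_true, decide_eq_true_eq] at h3
  exact h3.resolve_left hv

theorem no_tri (g h : VV 10) (g0 : g ≠ v0 10) (h0 : h ≠ v0 10) (gh0 : vx 10 g h ≠ v0 10)
    (wg : ev 10 tw g ≠ 0) (wh : ev 10 tw h ≠ 0) (wgh : ev 10 tw (vx 10 g h) ≠ 0) : False := by
  obtain ⟨a, b, u⟩ := g
  obtain ⟨c, d, v⟩ := h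
  have bad : ∀ x : VV 8, ((false, false, x) : VV 10) ≠ v0 10 →
      ev 10 tw ((false, false, x) : VV 10) ≠ 0 → False := by
    intro x hx hw
    exact hx (by rw [T00 x hw]; rfl)
  have hc : ∀ x y : VV 8, vx 8 x (vx 8 y x) = y := by
    intro x y
    rw [vx_comm 8 y x, vx_cancel]
  cases a <;> cases b <;> cases c <;> cases d
  · exact bad u g0 wg
  · exact bad u g0 wg
  · exact bad u g0 wg
  · exact bad u g0 wg
  · exact bad v h0 wh
  · exact bad _ gh0 wgh
  · -- (0,1) and (1,0)
    have h1 := TT v (vx 8 u v) wh wgh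
    rw [hc v u] at h1
    exact wg h1
  · -- (0,1) and (1,1)
    have h1 := TT (vx 8 u v) v wgh wh
    rw [vx_comm 8 (vx 8 u v) v, hc v u] at h1
    exact wg h1
  · exact bad v h0 wh
  · -- (1,0) and (0,1)
    have h1 := TT u (vx 8 u v) wg wgh
    rw [vx_cancel] at h1
    exact wh h1
  · exact bad _ gh0 wgh
  · -- (1,0) and (1,1)
    exact wgh (TT u v wg wh)
  · exact bad v h0 wh
  · -- (1,1) and (0,1)
    have h1 := TT (vx 8 u v) u wgh wg
    rw [vx_comm 8 (vx 8 u v) u, vx_cancel] at h1
    exact wh h1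
  · -- (1,1) and (1,0)
    have h1 := TT v u wh wg
    rw [vx_comm 8 v u] at h1
    exact wgh h1
  · exact bad _ gh0 wgh

/-- The triangle-free Cayley graph on `F_2^10`. -/
def G : SimpleGraph (VV 10) where
  Adj i j := i ≠ j ∧ ev 10 tw (vx 10 i j) ≠ 0
  symm := by
    constructor
    intro i j hij
    exact ⟨hij.1.symm, by rw [vx_comm]; exact hij.2⟩
  loopless := ⟨fun i hi => hi.1 rfl⟩

theorem G_tri (x y z : VV 10) (h1 : G.Adj x y) (h2 : G.Adj y z) (h3 : G.Adj x z) : False := by
  refine no_tri (vx 10 x y) (vx 10 y z) ?_ ?_ ?_ h1.2 h2.2 ?_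
  · intro h; exact h1.1 (eq_of_vx_zero 10 x y h)
  · intro h; exact h2.1 (eq_of_vx_zero 10 y z h)
  · rw [vx_trans]
    intro h; exact h3.1 (eq_of_vx_zero 10 x z h)
  · rw [vx_trans]; exact h3.2

/-- The matrix. -/
noncomputable def A : Matrix (VV 10) (VV 10) ℝ :=
  fun i j => ((ev 10 tw (vx 10 i j) : ℤ) : ℝ) / 224

theorem A_symm (i j : VV 10) : A i j = A j i := by
  unfold A
  rw [vx_comm]

theorem A_psd : A.PosSemidef := by
  refine Matrix.PosSemidef.of_dotProduct_mulVec_nonneg ?_ ?_
  · ext i j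
    simp [Matrix.conjTranspose, A_symm j i]
  · intro x
    have h := check_sound 10 tw check_tw x
    have e : star x ⬝ᵥ (A.mulVec x) = (1 / 224) *
        ∑ i, ∑ j, x i * x j * ((ev 10 tw (vx 10 i j) : ℤ) : ℝ) := by
      simp only [dotProduct, Matrix.mulVec, A, Pi.star_apply, star_trivial]
      rw [Finset.mul_sum]
      refine Finset.sum_congr rfl ?_
      intro i _
      rw [Finset.mul_sum, Finset.mul_sum]
      refine Finset.sum_congr rfl ?_
      intro j _
      ring
    rw [e]
    positivity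

theorem A_nonneg (i j : VV 10) : 0 ≤ A i j := by
  unfold A
  have h : 0 ≤ ev 10 tw (vx 10 i j) := ev_build_nonneg 10 code _
  have h' : (0 : ℝ) ≤ ((ev 10 tw (vx 10 i j) : ℤ) : ℝ) := by exact_mod_cast h
  positivity

theorem A_pat (i j : VV 10) (hij : i ≠ j) (h : ¬ G.Adj i j) : A i j = 0 := by
  have h1 : ev 10 tw (vx 10 i j) = 0 := by
    by_contra h2
    exact h ⟨hij, h2⟩
  unfold A
  rw [h1]
  simp

/-- The sign vector of the first coordinate. -/
def sg (v : VV 10) : ℝ := if v.1 then -1 else 1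

theorem sg_vx (a b : VV 10) : sg a * sg (vx 10 a b) = sg b := by
  obtain ⟨a1, a2⟩ := a
  obtain ⟨b1, b2⟩ := b
  change sg (a1, a2) * sg (Bool.xor a1 b1, vx 9 a2 b2) = sg (b1, b2)
  unfold sg
  cases a1 <;> cases b1 <;> simp

/-- The substitution by a translation. -/
def tr (a : VV 10) : VV 10 ≃ VV 10 where
  toFun := vx 10 a
  invFun := vx 10 a
  left_inv := vx_cancel 10 a
  right_inv := vx_cancel 10 a

theorem quad (φ : ℤ → ℝ) :
    ∑ i, ∑ j, sg i * sg j * φ (ev 10 tw (vx 10 i j))
      = (Fintype.card (VV 10) : ℝ) * ∑ g, sg g * φ (ev 10 tw g) := by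
  have h : ∀ i : VV 10, ∑ j, sg i * sg j * φ (ev 10 tw (vx 10 i j))
      = ∑ g, sg g * φ (ev 10 tw g) := by
    intro i
    refine Fintype.sum_equiv (tr i) _ _ ?_
    intro j
    have h1 : sg i * sg j = sg (vx 10 i j) := by
      have := sg_vx i (vx 10 i j)
      rw [vx_cancel] at this
      exact this
    change sg i * sg j * φ (ev 10 tw (vx 10 i j)) = sg (vx 10 i j) * φ (ev 10 tw (vx 10 i j))
    rw [h1]
  rw [Finset.sum_congr rfl (fun i _ => h i)]
  simp

theorem sum_sg (φ : ℤ → ℝ) (h0 : φ 0 = 0) :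
    ∑ g, sg g * φ (ev 10 tw g) = φ 224 + 192 * φ 1 - 16 * φ 26 := by
  rw [sum_succ]
  have e1 : ∀ v : VV 9, sg ((true, v) : VV 10) * φ (ev 10 tw (true, v)) = - φ (ev 9 tw.R v) := by
    intro v
    have : sg ((true, v) : VV 10) = -1 := by simp [sg]
    rw [this]
    change -1 * φ (ev 9 tw.R v) = _
    ring
  have e2 : ∀ v : VV 9, sg ((false, v) : VV 10) * φ (ev 10 tw (false, v)) = φ (ev 9 tw.L v) := by
    intro v
    have : sg ((false, v) : VV 10) = 1 := by simp [sg]
    rw [this]
    change 1 * φ (ev 9 tw.L v) = _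
    ring
  simp_rw [e1, e2]
  rw [Finset.sum_neg_distrib, sum_ev φ h0 9 _ ok_L, sum_ev φ h0 9 _ ok_R, cL1, cL26, cL224, cR1,
    cR26, cR224]
  push_cast
  ring

theorem bound_a : ((1 / 224 : ℝ)) ^ ((12 : ℝ) / 11) < 274 / 100000 := by
  have h0 : (0 : ℝ) ≤ ((1 / 224 : ℝ)) ^ ((12 : ℝ) / 11) := by positivity
  have h1 : (((1 / 224 : ℝ)) ^ ((12 : ℝ) / 11)) ^ 11 = (1 / 224 : ℝ) ^ 12 := by
    rw [← Real.rpow_natCast, ← Real.rpow_mul (by norm_num)]
    norm_num
  refine lt_of_pow_lt_pow_left₀ 11 (by norm_num) ?_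
  rw [h1]
  norm_num

theorem bound_b : (954 / 10000 : ℝ) < ((26 / 224 : ℝ)) ^ ((12 : ℝ) / 11) := by
  have h1 : (((26 / 224 : ℝ)) ^ ((12 : ℝ) / 11)) ^ 11 = (26 / 224 : ℝ) ^ 12 := by
    rw [← Real.rpow_natCast, ← Real.rpow_mul (by norm_num)]
    norm_num
  refine lt_of_pow_lt_pow_left₀ 11 (by positivity) ?_
  rw [h1]
  norm_num

theorem not_psd : ¬ (A.map (fun x : ℝ => x ^ ((12 : ℝ) / 11))).PosSemidef := by
  intro hP
  have h := hP.dotProduct_mulVec_nonneg sg
  have e : star sg ⬝ᵥ ((A.map (fun x : ℝ => x ^ ((12 : ℝ) / 11))).mulVec sg)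
      = ∑ i, ∑ j, sg i * sg j *
        (fun z : ℤ => ((z : ℝ) / 224) ^ ((12 : ℝ) / 11)) (ev 10 tw (vx 10 i j)) := by
    simp only [dotProduct, Matrix.mulVec, A, Pi.star_apply, star_trivial, Matrix.map_apply]
    refine Finset.sum_congr rfl ?_
    intro i _
    rw [Finset.mul_sum]
    refine Finset.sum_congr rfl ?_
    intro j _
    ring
  have hs := sum_sg (fun z : ℤ => ((z : ℝ) / 224) ^ ((12 : ℝ) / 11)) (by simp)
  rw [e, quad (fun z : ℤ => ((z : ℝ) / 224) ^ ((12 : ℝ) / 11)), hs] at h
  have hc : (0 : ℝ) < (Fintype.card (VV 10) : ℝ) := by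
    have : 0 < Fintype.card (VV 10) := Fintype.card_pos_iff.mpr ⟨v0 10⟩
    exact_mod_cast this
  have hneg : (((224 : ℤ) : ℝ) / 224) ^ ((12 : ℝ) / 11) +
      192 * (((1 : ℤ) : ℝ) / 224) ^ ((12 : ℝ) / 11) -
      16 * (((26 : ℤ) : ℝ) / 224) ^ ((12 : ℝ) / 11) < 0 := by
    have h1 := bound_a
    have h2 := bound_b
    have h3 : (((224 : ℤ) : ℝ) / 224) ^ ((12 : ℝ) / 11) = 1 := by
      have : (((224 : ℤ) : ℝ) / 224) = 1 := by norm_num
      rw [this, Real.one_rpow]
    rw [h3]
    push_cast
    linarith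
  have := mul_neg_of_pos_of_neg hc hneg
  linarith

theorem ne_of_fst {x y : VV 10} (h : x.1 ≠ y.1) : x ≠ y := by
  intro e
  exact h (by rw [e])

theorem path_exists : ∃ f : Fin 3 → VV 10, Function.Injective f ∧ ∃ a b : Fin 3, a ≠ b ∧
    ∀ i j : Fin 3, i ≠ j → ¬(i = a ∧ j = b) → ¬(i = b ∧ j = a) → G.Adj (f i) (f j) := by
  have a01 : G.Adj ((true, v0 9) : VV 10) (v0 10) :=
    ⟨ne_of_fst (by decide), by decide +kernel⟩
  have a12 : G.Adj (v0 10) ((true, true, v0 8) : VV 10) :=
    ⟨ne_of_fst (by decide), by decide +kernel⟩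
  have n02 : ((true, v0 9) : VV 10) ≠ ((true, true, v0 8) : VV 10) := by
    intro e
    have h2 : v0 9 = ((true, v0 8) : VV 9) := congrArg (fun v : VV 10 => v.2) e
    have h3 : false = true := congrArg (fun v : VV 9 => v.1) h2
    exact Bool.noConfusion h3
  refine ⟨![((true, v0 9) : VV 10), v0 10, ((true, true, v0 8) : VV 10)], ?_, 0, 2, by decide, ?_⟩
  · intro i j hij
    fin_cases i <;> fin_cases j
    · rfl
    · exact absurd hij a01.1
    · exact absurd hij n02
    · exact absurd hij.symm a01.1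
    · rfl
    · exact absurd hij a12.1
    · exact absurd hij.symm n02
    · exact absurd hij.symm a12.1
    · rfl
  · intro i j hij h1 h2
    fin_cases i <;> fin_cases j
    · exact absurd rfl hij
    · exact a01
    · exact absurd ⟨rfl, rfl⟩ h1
    · exact a01.symm
    · exact absurd rfl hij
    · exact a12
    · exact absurd ⟨rfl, rfl⟩ h2
    · exact a12.symm
    · exact absurd rfl hij

theorem r_max (s : ℕ) (hs : ∃ f : Fin s → VV 10, Function.Injective f ∧ ∃ a b : Fin s, a ≠ b ∧
    ∀ i j : Fin s, i ≠ j → ¬(i = a ∧ j = b) → ¬(i = b ∧ j = a) → G.Adj (f i) (f j)) :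
    s ≤ 3 := by
  by_contra hlt
  push Not at hlt
  obtain ⟨f, -, a, b, hab, hadj⟩ := hs
  have hcard : 1 < ((Finset.univ : Finset (Fin s)) \ {a, b}).card := by
    have h1 := Finset.le_card_sdiff ({a, b} : Finset (Fin s)) Finset.univ
    have h2 : ({a, b} : Finset (Fin s)).card ≤ 2 := Finset.card_le_two
    simp only [Finset.card_univ, Fintype.card_fin] at h1
    omega
  obtain ⟨j, hj, k, hk, hjk⟩ := Finset.one_lt_card.mp hcard
  simp only [Finset.mem_sdiff, Finset.mem_univ, Finset.mem_insert, Finset.mem_singleton,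
    true_and, not_or] at hj hk
  refine G_tri (f a) (f j) (f k) ?_ ?_ ?_
  · exact hadj a j (fun h => hj.1 h.symm) (fun h => hj.2 h.2) (fun h => hab h.1)
  · exact hadj j k hjk (fun h => hj.1 h.1) (fun h => hj.2 h.1)
  · exact hadj a k (fun h => hk.1 h.symm) (fun h => hk.2 h.2) (fun h => hab h.1)


end Pool.Agent.Lib.MP_903d4d_co
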